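import Pool.Agent.H5.FR.Stmts

/-!
# Project FRK, module FAM: the family of polynomial size
-/

set_option autoImplicit false
set_option linter.unusedSectionVars false

open Finset

namespace Pool.Agent.H5.FR

section FAMaux

variable {V : Type} [Fintype V] [DecidableEq V]

private theorem fam_mono {χ : V → ℤ} {F F' : Finset (Finset V)} (hF : F ⊆ F') {X Y : Finset V}
    (h : Reach χ F X Y) : Reach χ F' X Y := by
  induction h with
  | refl h => exact Reach.refl (hF h)
  | step _ hx hy cx cy hf ih => exact Reach.step ih hx hy cx cy (hF hf)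

private theorem fam_chi_in {Y : Finset V} {v : V} (h : v ∈ Y) : chi Y v = 1 := by
  simp [chi, h]

private theorem fam_chi_out {Y : Finset V} {v : V} (h : v ∉ Y) : chi Y v = -1 := by
  simp [chi, h]

/-- chains in the family of all sets -/
private theorem fam_all {n : ℕ} {Y : Finset V} (hY : Y.card = n) (hY' : Yᶜ.card = n) (j : ℕ)
    (hj : j ≤ n) : ∃ X : Finset V, Reach (chi Y) univ ∅ X ∧ (X ∩ Y).card = j ∧
      (X ∩ Yᶜ).card = j := by
  induction j with
  | zero => exact ⟨∅, Reach.refl (mem_univ _), by simp, by simp⟩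
  | succ j ih =>
    obtain ⟨X, h1, h2, h3⟩ := ih (by omega)
    have h4 : ∃ x ∈ Y, x ∉ X := by
      by_contra hcon
      push Not at hcon
      have h5 : X ∩ Y = Y := inter_eq_right.2 hcon
      rw [h5] at h2
      omega
    have h6 : ∃ y ∈ Yᶜ, y ∉ X := by
      by_contra hcon
      push Not at hcon
      have h5 : X ∩ Yᶜ = Yᶜ := inter_eq_right.2 hcon
      rw [h5] at h3
      omega
    obtain ⟨x, hx, hxX⟩ := h4
    obtain ⟨y, hy, hyX⟩ := h6
    have hyY : y ∉ Y := mem_compl.1 hy
    have hxY : x ∉ Yᶜ := fun h => mem_compl.1 h hx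
    refine ⟨insert x (insert y X), Reach.step h1 hxX hyX (fam_chi_in hx) (fam_chi_out hyY)
      (mem_univ _), ?_, ?_⟩
    · rw [insert_inter_of_mem hx, insert_inter_of_notMem hyY, card_insert_of_notMem, h2]
      intro h
      exact hxX (mem_inter.1 h).1
    · rw [insert_inter_of_notMem hxY, insert_inter_of_mem hy, card_insert_of_notMem, h3]
      intro h
      exact hyX (mem_inter.1 h).1

private theorem fam_all' {n : ℕ} {Y : Finset (Fin (2 * n))} (hY : Y.card = n) :
    Reach (chi Y) univ ∅ univ := by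
  have hY' : Yᶜ.card = n := by
    rw [card_compl, Fintype.card_fin, hY]
    omega
  obtain ⟨X, h1, h2, h3⟩ := fam_all hY hY' n le_rfl
  have h4 : X ∩ Y = Y := eq_of_subset_of_card_le inter_subset_right (by rw [h2, hY])
  have h5 : X ∩ Yᶜ = Yᶜ := eq_of_subset_of_card_le inter_subset_right (by rw [h3, hY'])
  have h6 : X = univ := by
    rw [eq_univ_iff_forall]
    intro v
    by_cases hv : v ∈ Y
    · rw [← h4] at hv
      exact (mem_inter.1 hv).1
    · have hv' : v ∈ Yᶜ := mem_compl.2 hv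
      rw [← h5] at hv'
      exact (mem_inter.1 hv').1
  rwa [h6] at h1

private theorem fam_cs {n : ℕ} {Y : Finset (Fin (2 * n))} (hY : Y.card = n) :
    cs (chi Y) univ = 0 := by
  have hY' : Yᶜ.card = n := by
    rw [card_compl, Fintype.card_fin, hY]
    omega
  unfold cs
  rw [← sum_add_sum_compl Y, sum_congr rfl (fun v hv => fam_chi_in hv),
    sum_congr rfl (fun v hv => fam_chi_out (mem_compl.1 hv))]
  simp [hY, hY']

end FAMaux

theorem fam_thm (h1 : ROOStmt) (h2 : SEGStmt) (h3 : CNTStmt) (h4 : TEXStmt) (h5 : PARStmt) :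
    FAMStmt := by
  obtain ⟨lam, β, r, hP⟩ := h5
  have hl := hP.lam_pos
  have hβ : 12 < β := by
    have := hP.big
    nlinarith
  set U : ℕ := 8 * lam with hU
  set M : ℕ := (U * β) ^ 2 + lam * (U * β) with hM
  set K : ℕ := r ^ 2 * 2 ^ (2 * β ^ 2) * (2 * β ^ 2) ^ 2 with hK
  refine ⟨2 + 2 * K + 2 * M + U ^ 2, fun n => ?_⟩
  have hn2 : 1 ≤ n + 2 := by omega
  by_cases hn : 2 * n < U ^ 2
  · refine ⟨univ, ?_, fun Y hY => fam_all' hY⟩
    rw [card_univ, Fintype.card_finset, Fintype.card_fin]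
    calc 2 ^ (2 * n) ≤ (n + 2) ^ (2 * n) := Nat.pow_le_pow_left (by omega) _
      _ ≤ (n + 2) ^ (2 + 2 * K + 2 * M + U ^ 2) := Nat.pow_le_pow_right hn2 (by omega)
  · have hn : U ^ 2 ≤ 2 * n := not_lt.1 hn
    have hU8 : 8 ≤ U := by omega
    have hn1 : 1 ≤ n := by nlinarith
    set s : ℝ := Real.sqrt (2 * n) with hs
    have hs2 : s ^ 2 = 2 * n := by
      rw [hs]
      exact Real.sq_sqrt (by positivity)
    have hs0 : 0 ≤ s := Real.sqrt_nonneg _
    have hUs : (U : ℝ) ≤ s := by
      rw [hs]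
      apply Real.le_sqrt_of_sq_le
      exact_mod_cast hn
    have hU0 : (0 : ℝ) < U := by
      have : 0 < U := by omega
      exact_mod_cast this
    have hβ1 : (1 : ℝ) < β := by
      have : 1 < β := by omega
      exact_mod_cast this
    obtain ⟨H, hH1, hH2⟩ := exists_nat_pow_near (x := s / U) (y := (β : ℝ))
      ((one_le_div hU0).2 hUs) hβ1
    have hβH : (0 : ℝ) < (β : ℝ) ^ H := by positivity
    set u : ℝ := s / (β : ℝ) ^ H with hu
    have hu1 : (U : ℝ) ≤ u := by
      rw [hu, le_div_iff₀ hβH, mul_comm]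
      exact (le_div_iff₀ hU0).1 hH1
    have hu2 : u ≤ (U : ℝ) * β := by
      rw [hu, div_le_iff₀ hβH]
      rw [div_lt_iff₀ hU0, pow_succ] at hH2
      nlinarith
    have hu8 : 8 * (lam : ℝ) ≤ u := by
      have : ((U : ℕ) : ℝ) = 8 * (lam : ℝ) := by
        rw [hU]
        push_cast
        ring
      rw [← this]
      exact hu1
    have hu0 : 0 ≤ u := hU0.le.trans hu1
    have huH : (u * (β : ℝ) ^ H) ^ 2 = 2 * n := by
      rw [hu, div_mul_cancel₀ _ hβH.ne', hs2]
    obtain ⟨ω, hω⟩ := h1 n hn1 lam β r hP u hu8 H huH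
    have hMu : u ^ 2 + lam * u ≤ (M : ℝ) := by
      rw [hM]
      push_cast
      have h6 : u ^ 2 ≤ ((U : ℝ) * β) ^ 2 := pow_le_pow_left₀ hu0 hu2 2
      have h7 : (lam : ℝ) * u ≤ lam * ((U : ℝ) * β) :=
        mul_le_mul_of_nonneg_left hu2 (Nat.cast_nonneg _)
      linarith
    refine ⟨univ.biUnion (fun j => Fam M H (univ, ω j) (∅, ω j)), ?_, ?_⟩
    · have h6 : (univ.biUnion (fun j => Fam M H (univ, ω j) (∅, ω j))).card ≤
          2 * n * (K ^ H * 2 ^ (2 * M)) := by
        refine (card_biUnion_le).trans ?_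
        refine (sum_le_card_nsmul _ _ (K ^ H * 2 ^ (2 * M)) ?_).trans ?_
        · intro j _
          exact h3 _ _ _ _ _ _ _
        · rw [card_univ, Fintype.card_fin, smul_eq_mul]
      have h7 : β ^ H ≤ 2 * n := by
        have h8 : (β : ℝ) ^ H ≤ 2 * n := by
          have h9 : s / U ≤ s := div_le_self hs0 (by
            have : 1 ≤ U := by omega
            exact_mod_cast this)
          have h10 : s ≤ s ^ 2 := by
            have h11 : (1 : ℝ) ≤ s := by
              have : (1 : ℝ) ≤ U := by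
                have : 1 ≤ U := by omega
                exact_mod_cast this
              exact this.trans hUs
            nlinarith
          rw [← hs2]
          exact hH1.trans (h9.trans h10)
        exact_mod_cast h8
      have h8 : K ^ H ≤ (2 * n) ^ K := by
        have h9 : K ≤ β ^ K := (Nat.lt_pow_self (by omega)).le
        calc K ^ H ≤ (β ^ K) ^ H := Nat.pow_le_pow_left h9 _
          _ = (β ^ H) ^ K := by rw [← pow_mul, ← pow_mul, mul_comm]
          _ ≤ (2 * n) ^ K := Nat.pow_le_pow_left h7 _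
      have h9 : 2 * n ≤ (n + 2) ^ 2 := by nlinarith
      calc (univ.biUnion (fun j => Fam M H (univ, ω j) (∅, ω j))).card
          ≤ 2 * n * (K ^ H * 2 ^ (2 * M)) := h6
        _ ≤ (n + 2) ^ 2 * (((n + 2) ^ 2) ^ K * (n + 2) ^ (2 * M)) := by
            refine Nat.mul_le_mul h9 (Nat.mul_le_mul (h8.trans (Nat.pow_le_pow_left h9 _)) ?_)
            exact Nat.pow_le_pow_left (by omega) _
        _ = (n + 2) ^ (2 + 2 * K + 2 * M) := by
            rw [← pow_mul, ← pow_add, ← pow_add]
            congr 1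
            ring
        _ ≤ (n + 2) ^ (2 + 2 * K + 2 * M + U ^ 2) := Nat.pow_le_pow_right hn2 (by omega)
    · intro Y hY
      obtain ⟨j, hj⟩ := hω Y hY
      have hχ : ∀ v, chi Y v = 1 ∨ chi Y v = -1 := by
        intro v
        by_cases hv : v ∈ Y
        · exact Or.inl (fam_chi_in hv)
        · exact Or.inr (fam_chi_out hv)
      have h6 := (h4 _ (chi Y) hχ lam β r hP u hu8 H (univ, ω j)).2.1 hj
      have h7 := h2 _ (chi Y) hχ lam β r hP u hu8 M hMu H (univ, ω j) (∅, ω j) 0 ∅ ∅ hj h6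
        (by simp) (Or.inr ⟨rfl, by simpa using fam_cs hY, rfl⟩)
      have h8 : ((univ, ω j) : Blk (Fin (2 * n)) (β ^ 2) r H).1 ∪ ∅ = univ := by simp
      rw [h8] at h7
      exact fam_mono (subset_biUnion_of_mem (fun j => Fam M H (univ, ω j) (∅, ω j))
        (mem_univ j)) h7

end Pool.Agent.H5.FR
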