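import Pool.Agent.H5.FR.Stmts

/-!
# Project FRK, module POL: generic weights give full rank
-/

set_option autoImplicit false
set_option linter.unusedSectionVars false

open Finset

namespace Pool.Agent.H5.FR

/-! ### change of the weights -/

private theorem pol_map {K L : Type} [CommRing K] [CommRing L] (φ : K →+* L) {V : Type}
    [DecidableEq V] (F : Finset (Finset V)) (w : Finset V → V → V → K) (j : ℕ) (X : Finset V) :
    MvPolynomial.map φ (PP F w j X) = PP F (fun Z x y => φ (w Z x y)) j X := by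
  induction j generalizing X with
  | zero =>
    simp only [PP]
    split_ifs
    · rw [map_one]
    · rw [map_zero]
  | succ j ih =>
    simp only [PP]
    rw [map_sum]
    refine sum_congr rfl fun p _ => ?_
    rw [map_mul, map_mul, map_add, MvPolynomial.map_C, MvPolynomial.map_X, MvPolynomial.map_X, ih]

private theorem pol_congr {K : Type} [CommRing K] {V : Type} [DecidableEq V]
    (F : Finset (Finset V)) (w w' : Finset V → V → V → K) (j : ℕ) (X : Finset V)
    (h : ∀ Z, Z ⊆ X → w Z = w' Z) : PP F w j X = PP F w' j X := by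
  induction j generalizing X with
  | zero => simp only [PP]
  | succ j ih =>
    simp only [PP]
    refine sum_congr rfl fun p _ => ?_
    rw [h X (Subset.refl _), ih]
    intro Z hZ
    exact h Z (hZ.trans ((erase_subset _ _).trans (erase_subset _ _)))

/-! ### one chain -/

section Chain

variable {K : Type} [CommRing K] {V : Type} [Fintype V] [DecidableEq V]

private theorem pol_chain {F : Finset (Finset V)} {Y X₀ X : Finset V}
    (h : Reach (chi Y) F X₀ X) (h0 : X₀ = ∅) : ∃ (w : Finset V → V → V → K) (m : V → V),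
      X ∈ F ∧ (∀ v ∈ X ∩ Y, m v ∈ X \ Y) ∧ Set.InjOn m (X ∩ Y : Finset V) ∧
        PP F w (X ∩ Y).card X = ∏ v ∈ X ∩ Y, (MvPolynomial.X v + MvPolynomial.X (m v)) := by
  induction h with
  | refl hZ =>
    subst h0
    refine ⟨fun _ _ _ => 0, id, hZ, by simp, by simp, ?_⟩
    simp [PP]
  | @step Z x y h hx hy cx cy hF ih =>
    obtain ⟨w, m, h1, h2, h3, h4⟩ := ih
    have hxY : x ∈ Y := by
      by_contra hcon
      simp [chi, hcon] at cx
    have hyY : y ∉ Y := by
      intro hcon
      simp [chi, hcon] at cy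
    have hxy : x ≠ y := fun h => hyY (h ▸ hxY)
    have hI : insert x (insert y Z) ∩ Y = insert x (Z ∩ Y) := by
      rw [insert_inter_of_mem hxY, insert_inter_of_notMem hyY]
    have hxI : x ∉ Z ∩ Y := fun h => hx (mem_inter.1 h).1
    have hm : ∀ v ∈ Z ∩ Y, Function.update m x y v = m v := by
      intro v hv
      rw [Function.update_of_ne]
      rintro rfl
      exact hxI hv
    have hne : ∀ T : Finset V, T ⊆ Z → T ≠ insert x (insert y Z) := by
      rintro T hT rfl
      exact hx (hT (mem_insert_self _ _))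
    refine ⟨fun T a b => if T = insert x (insert y Z) then (if a = x ∧ b = y then 1 else 0)
      else w T a b, Function.update m x y, hF, ?_, ?_, ?_⟩
    · intro v hv
      rw [hI, mem_insert] at hv
      rcases hv with rfl | hv
      · rw [Function.update_self, mem_sdiff]
        exact ⟨mem_insert_of_mem (mem_insert_self _ _), hyY⟩
      · rw [hm v hv]
        have := mem_sdiff.1 (h2 v hv)
        rw [mem_sdiff]
        exact ⟨mem_insert_of_mem (mem_insert_of_mem this.1), this.2⟩
    · rw [hI]
      intro u hu v hv huv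
      rw [mem_coe, mem_insert] at hu hv
      rcases hu with rfl | hu
      · rcases hv with rfl | hv
        · rfl
        · rw [Function.update_self, hm v hv] at huv
          have := mem_sdiff.1 (h2 v hv)
          rw [← huv] at this
          exact absurd this.1 hy
      · rcases hv with rfl | hv
        · rw [Function.update_self, hm u hu] at huv
          have := mem_sdiff.1 (h2 u hu)
          rw [huv] at this
          exact absurd this.1 hy
        · rw [hm u hu, hm v hv] at huv
          exact h3 (mem_coe.2 hu) (mem_coe.2 hv) huv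
    · rw [hI, card_insert_of_notMem hxI, prod_insert hxI, Function.update_self]
      have he : ((insert x (insert y Z)).erase x).erase y = Z := by
        rw [erase_insert (by
          rw [mem_insert, not_or]
          exact ⟨hxy, hx⟩), erase_insert hy]
      simp only [PP]
      rw [sum_eq_single (x, y)]
      · rw [he, if_pos trivial, if_pos ⟨rfl, rfl⟩, MvPolynomial.C_1, one_mul]
        congr 1
        rw [pol_congr F _ w _ _ (fun T hT => ?_), h4]
        · refine prod_congr rfl fun v hv => ?_
          rw [hm v hv]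
        · funext a b
          rw [if_neg (hne T hT)]
      · intro p _ hp
        rw [if_pos trivial, if_neg, MvPolynomial.C_0, zero_mul, zero_mul]
        rintro ⟨ha, hb⟩
        exact hp (Prod.ext ha hb)
      · intro hcon
        exfalso
        apply hcon
        rw [mem_filter, mem_product]
        refine ⟨⟨mem_insert_self _ _, mem_insert_of_mem (mem_insert_self _ _)⟩, hxy, ?_⟩
        rw [he]
        exact h1

end Chain

/-! ### the matrix of one chain -/

section Mat

variable {V : Type} [Fintype V] [DecidableEq V] {Y : Finset V}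

/-- the exponent of the entry `(A, B)` -/
private noncomputable def pol_e (A : Finset {x // x ∈ Y}) (B : Finset {x // x ∉ Y}) : V →₀ ℕ :=
  ∑ a ∈ A, Finsupp.single a.1 1 + ∑ b ∈ B, Finsupp.single b.1 1

private theorem pol_e_in (A : Finset {x // x ∈ Y}) (B : Finset {x // x ∉ Y}) (v : {x // x ∈ Y}) :
    pol_e A B v.1 = if v ∈ A then 1 else 0 := by
  unfold pol_e
  rw [Finsupp.add_apply, Finsupp.finsetSum_apply, Finsupp.finsetSum_apply]
  have h2 : ∑ b ∈ B, (Finsupp.single b.1 1 : V →₀ ℕ) v.1 = 0 := by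
    refine sum_eq_zero fun b _ => ?_
    rw [Finsupp.single_apply, if_neg]
    intro h
    exact b.2 (h ▸ v.2)
  rw [h2, add_zero]
  have h3 : ∀ a ∈ A, (Finsupp.single a.1 1 : V →₀ ℕ) v.1 = if a = v then 1 else 0 := by
    intro a _
    rw [Finsupp.single_apply]
    by_cases h : a = v
    · rw [if_pos h, if_pos (congrArg Subtype.val h)]
    · rw [if_neg h, if_neg (fun h' => h (Subtype.ext h'))]
  rw [sum_congr rfl h3, sum_ite_eq']

private theorem pol_e_out (A : Finset {x // x ∈ Y}) (B : Finset {x // x ∉ Y}) (v : {x // x ∉ Y}) :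
    pol_e A B v.1 = if v ∈ B then 1 else 0 := by
  unfold pol_e
  rw [Finsupp.add_apply, Finsupp.finsetSum_apply, Finsupp.finsetSum_apply]
  have h2 : ∑ b ∈ A, (Finsupp.single b.1 1 : V →₀ ℕ) v.1 = 0 := by
    refine sum_eq_zero fun b _ => ?_
    rw [Finsupp.single_apply, if_neg]
    intro h
    exact v.2 (h ▸ b.2)
  rw [h2, zero_add]
  have h3 : ∀ a ∈ B, (Finsupp.single a.1 1 : V →₀ ℕ) v.1 = if a = v then 1 else 0 := by
    intro a _
    rw [Finsupp.single_apply]
    by_cases h : a = v
    · rw [if_pos h, if_pos (congrArg Subtype.val h)]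
    · rw [if_neg h, if_neg (fun h' => h (Subtype.ext h'))]
  rw [sum_congr rfl h3, sum_ite_eq']

private theorem pol_e_inj {A A' : Finset {x // x ∈ Y}} {B B' : Finset {x // x ∉ Y}}
    (h : pol_e A B = pol_e A' B') : A = A' ∧ B = B' := by
  constructor
  · ext v
    have h1 := DFunLike.congr_fun h v.1
    rw [pol_e_in, pol_e_in] at h1
    by_cases h2 : v ∈ A <;> by_cases h3 : v ∈ A' <;> simp [h2, h3] at h1 ⊢
  · ext v
    have h1 := DFunLike.congr_fun h v.1
    rw [pol_e_out, pol_e_out] at h1
    by_cases h2 : v ∈ B <;> by_cases h3 : v ∈ B' <;> simp [h2, h3] at h1 ⊢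

private theorem pol_coeff {K : Type} [CommRing K] (σ : {x // x ∈ Y} ≃ {x // x ∉ Y})
    (A : Finset {x // x ∈ Y}) (B : Finset {x // x ∉ Y}) :
    (∏ a : {x // x ∈ Y}, (MvPolynomial.X a.1 + MvPolynomial.X (σ a).1) :
      MvPolynomial V K).coeff (pol_e A B) = if B = Aᶜ.map σ.toEmbedding then 1 else 0 := by
  have h1 : (∏ a : {x // x ∈ Y}, (MvPolynomial.X a.1 + MvPolynomial.X (σ a).1) :
      MvPolynomial V K) = ∑ t : Finset {x // x ∈ Y},
        MvPolynomial.monomial (pol_e t (tᶜ.map σ.toEmbedding)) 1 := by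
    rw [prod_add, powerset_univ]
    refine sum_congr rfl fun t _ => ?_
    have h2 : (∏ i ∈ t, MvPolynomial.X i.1 : MvPolynomial V K) =
        MvPolynomial.monomial (∑ a ∈ t, Finsupp.single a.1 1) 1 := by
      rw [MvPolynomial.monomial_sum_one]
      rfl
    have h3 : (∏ i ∈ univ \ t, MvPolynomial.X (σ i).1 : MvPolynomial V K) =
        MvPolynomial.monomial (∑ b ∈ tᶜ.map σ.toEmbedding, Finsupp.single b.1 1) 1 := by
      rw [MvPolynomial.monomial_sum_one, prod_map, compl_eq_univ_sdiff]
      rfl
    rw [h2, h3, MvPolynomial.monomial_mul, one_mul]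
    rfl
  rw [h1, MvPolynomial.coeff_sum]
  have h4 : ∀ t : Finset {x // x ∈ Y}, MvPolynomial.coeff (pol_e A B)
      (MvPolynomial.monomial (pol_e t (tᶜ.map σ.toEmbedding)) (1 : K)) =
        if t = A then (if B = Aᶜ.map σ.toEmbedding then 1 else 0) else 0 := by
    intro t
    rw [MvPolynomial.coeff_monomial]
    by_cases h5 : t = A
    · subst h5
      rw [if_pos rfl]
      by_cases h6 : B = tᶜ.map σ.toEmbedding
      · rw [if_pos h6, if_pos (by rw [h6])]
      · rw [if_neg h6, if_neg]
        intro h7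
        exact h6 (pol_e_inj h7).2.symm
    · rw [if_neg h5, if_neg]
      intro h7
      exact h5 (pol_e_inj h7).1
  rw [sum_congr rfl (fun t _ => h4 t), sum_ite_eq' univ A, if_pos (mem_univ A)]

/-- the bijection of the index sets -/
private def pol_tau (σ : {x // x ∈ Y} ≃ {x // x ∉ Y}) :
    Finset {x // x ∈ Y} ≃ Finset {x // x ∉ Y} :=
  (Function.Involutive.toPerm _ (compl_involutive (α := Finset {x // x ∈ Y}))).trans σ.finsetCongr

private theorem pol_tau_apply (σ : {x // x ∈ Y} ≃ {x // x ∉ Y}) (A : Finset {x // x ∈ Y}) :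
    pol_tau σ A = Aᶜ.map σ.toEmbedding := rfl

end Mat

/-- suitable weights for one partition -/
private theorem pol_one {K : Type} [CommRing K] {n : ℕ} {F : Finset (Finset (Fin (2 * n)))}
    {Y : Finset (Fin (2 * n))} (hY : Y.card = n) (h : Reach (chi Y) F ∅ univ) :
    ∃ (w : Finset (Fin (2 * n)) → Fin (2 * n) → Fin (2 * n) → K)
      (τ : Finset {x // x ∈ Y} ≃ Finset {x // x ∉ Y}),
      (pdm (PP F w n univ) Y).submatrix id τ = 1 := by
  obtain ⟨w, m, -, h2, h3, h4⟩ := pol_chain (K := K) h rfl
  rw [univ_inter] at h2 h3 h4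
  have hm : ∀ v ∈ Y, m v ∉ Y := fun v hv => (mem_sdiff.1 (h2 v hv)).2
  have hbij : Function.Bijective (fun v : {x // x ∈ Y} => (⟨m v.1, hm v.1 v.2⟩ : {x // x ∉ Y})) := by
    rw [Fintype.bijective_iff_injective_and_card]
    refine ⟨?_, ?_⟩
    · intro u v huv
      exact Subtype.ext (h3 (mem_coe.2 u.2) (mem_coe.2 v.2) (congrArg Subtype.val huv))
    · rw [Fintype.card_coe, hY, Fintype.card_subtype_compl, Fintype.card_fin, Fintype.card_coe, hY]
      omega
  set σ : {x // x ∈ Y} ≃ {x // x ∉ Y} := Equiv.ofBijective _ hbij with hσ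
  refine ⟨w, pol_tau σ, ?_⟩
  have h5 : PP F w n univ = ∏ a : {x // x ∈ Y}, (MvPolynomial.X a.1 + MvPolynomial.X (σ a).1) := by
    have h6 : PP F w n univ = PP F w Y.card univ := by rw [hY]
    rw [h6, h4, ← prod_coe_sort]
    rfl
  ext A A'
  rw [Matrix.submatrix_apply, id, pol_tau_apply]
  have h7 : pdm (PP F w n univ) Y A (A'ᶜ.map σ.toEmbedding) =
      (PP F w n univ).coeff (pol_e A (A'ᶜ.map σ.toEmbedding)) := rfl
  rw [h7, h5, pol_coeff, Matrix.one_apply]
  by_cases h8 : A = A'
  · rw [if_pos h8, if_pos (by rw [h8])]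
  · rw [if_neg h8, if_neg]
    intro h9
    apply h8
    have h10 : A'ᶜ = Aᶜ := map_injective σ.toEmbedding h9
    exact (compl_injective h10).symm

theorem pol_thm : POLStmt := by
  intro K _ _ n F hF
  classical
  -- the bijections
  have hτ : ∀ Y : {Y : Finset (Fin (2 * n)) // Y.card = n},
      ∃ (w : Finset (Fin (2 * n)) → Fin (2 * n) → Fin (2 * n) → K)
      (τ : Finset {x // x ∈ Y.1} ≃ Finset {x // x ∉ Y.1}),
      (pdm (PP F w n univ) Y.1).submatrix id τ = 1 := fun Y => pol_one Y.2 (hF Y.1 Y.2)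
  choose W τ hW using hτ
  set R := MvPolynomial (Finset (Fin (2 * n)) × Fin (2 * n) × Fin (2 * n)) K
  set g : Finset (Fin (2 * n)) → Fin (2 * n) → Fin (2 * n) → R :=
    fun Z x y => MvPolynomial.X (Z, x, y) with hg
  -- evaluation of the determinants
  have hev : ∀ (w : Finset (Fin (2 * n)) → Fin (2 * n) → Fin (2 * n) → K)
      (Y : {Y : Finset (Fin (2 * n)) // Y.card = n}),
      MvPolynomial.eval (fun t => w t.1 t.2.1 t.2.2)
        ((pdm (PP F g n univ) Y.1).submatrix id (τ Y)).det =
        ((pdm (PP F w n univ) Y.1).submatrix id (τ Y)).det := by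
    intro w Y
    rw [RingHom.map_det]
    congr 1
    ext A A'
    rw [RingHom.mapMatrix_apply, Matrix.map_apply, Matrix.submatrix_apply, Matrix.submatrix_apply]
    unfold pdm
    rw [← MvPolynomial.coeff_map, pol_map]
    congr 1
    congr 1
    funext Z x y
    rw [hg, MvPolynomial.eval_X]
  have hne : (∏ Y : {Y : Finset (Fin (2 * n)) // Y.card = n},
      ((pdm (PP F g n univ) Y.1).submatrix id (τ Y)).det) ≠ 0 := by
    rw [prod_ne_zero_iff]
    intro Y _ h0
    have h1 := hev (W Y) Y
    rw [h0, hW Y, Matrix.det_one, map_zero] at h1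
    exact zero_ne_one h1
  obtain ⟨u, hu⟩ : ∃ u : Finset (Fin (2 * n)) × Fin (2 * n) × Fin (2 * n) → K,
      MvPolynomial.eval u (∏ Y : {Y : Finset (Fin (2 * n)) // Y.card = n},
        ((pdm (PP F g n univ) Y.1).submatrix id (τ Y)).det) ≠ 0 := by
    by_contra hcon
    push Not at hcon
    apply hne
    apply MvPolynomial.funext
    intro u
    rw [hcon u, map_zero]
  refine ⟨fun Z x y => u (Z, x, y), fun Y hY => ?_⟩
  rw [map_prod, prod_ne_zero_iff] at hu
  have h1 := hu ⟨Y, hY⟩ (mem_univ _)
  have h2 := hev (fun Z x y => u (Z, x, y)) ⟨Y, hY⟩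
  have h3 : (fun t : Finset (Fin (2 * n)) × Fin (2 * n) × Fin (2 * n) =>
      u (t.1, t.2.1, t.2.2)) = u := rfl
  rw [h3] at h2
  rw [h2] at h1
  have h4 : IsUnit ((pdm (PP F (fun Z x y => u (Z, x, y)) n univ) Y).submatrix id
      (τ ⟨Y, hY⟩)) := (Matrix.isUnit_iff_isUnit_det _).2 (isUnit_iff_ne_zero.2 h1)
  have h5 := Matrix.rank_of_isUnit _ h4
  have h6 := Matrix.rank_submatrix (pdm (PP F (fun Z x y => u (Z, x, y)) n univ) Y)
    (Equiv.refl _) (τ ⟨Y, hY⟩)
  have h7 : Fintype.card (Finset {x // x ∈ Y}) = 2 ^ n := by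
    rw [Fintype.card_finset, Fintype.card_coe, hY]
  rw [← h6, ← h7]
  exact h5

end Pool.Agent.H5.FR
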